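import Pool.Agent.Helper61.XP.Defs
import Pool.Agent.Helper61.XP.Main

/-!
# Almost all forms satisfy the Ramanujan conjecture, for arbitrary groups over function fields

Let `A` be a ring of `S`-integers of a global function field with the completions `k_v`, `v ∈ S`
(`IsSInt`), `G` a group (the group of `S`-adic points of a semisimple group) with an injective
homomorphism `ρ` to the product of the groups `GL_n(k_v)`, `K` a subgroup of matrices with integral
entries, `T_j`, `j ∈ J`, Hecke operators on `G / K` and `e` a type: a `K`-biinvariant function on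
`G` with finite support modulo `K`, for instance the matrix coefficient of a supercuspidal
representation of the group at one place (at the other places the indicator function of `K`).
`G(A) \ G / K` has finite volume, and the points are weighted by a `G(A)`-invariant integrable
function `w` (a constant if `G(A) \ G` is compact).

We consider the complete systems `F_i` of the cuspidal Hecke eigenforms of type `e` of level `𝔫`
(`IsFam`), for all levels `𝔫`, when the norm of `𝔫` tends to infinity. There is ONE probability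
measure `μ` on `ℂ^J`, the spectral measure of the operators `T_j` on `ℓ²(G / K)` at the vector `e`
(the Plancherel measure), such that

* `|z_j| ≤ |T_j|` almost everywhere (`|T_j|` is the norm of `T_j` on `ℓ²(G / K)`),
* the number of the `F_i`, divided by the index of `Γ(𝔫)` in `G(A)`, tends to `|e|² vol(G(A) \ G / K)`,
* the tuples of the Hecke eigenvalues of the `F_i` are equidistributed with respect to `μ`,
* suppose that the forms `F_i` have Satake parameters in some representation of dimension `N`
  (`Parameters`: at all unramified places, the exponents of the absolute values do not depend on the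
  place, and the representation is unitary), which at a place `v_i` are the roots of the polynomial
  `x ^ N + ∑ E_k(λ_i) x ^ k`, and that the number of parameters of absolute value `≠ 1` at `v_i` is
  `0` or at least `b`. Then the proportion of the forms `F_i` which violate the Ramanujan conjecture
  at SOME unramified place is at most `μ(Sing) + o(1)`, where `Sing` is the closed set of the points
  at which the roots of the polynomial have at most `m` different unit parts; here `m` is any number
  `≥ N - b / 2`. (By Macdonald's formula for the Plancherel measure `Sing` is a null set as soon as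
  it is a proper subset of the torus of the tempered parameters, so that the Ramanujan conjecture
  holds for 100 % of the forms.)
-/

set_option autoImplicit false

open scoped ComplexConjugate
open MeasureTheory

noncomputable section

namespace Pool.Agent.Results.MP_eadad4_nt.AlmostAllForms

open Pool.Agent.Helper78.DF Pool.Agent.Helper61.XE Pool.Agent.Helper61.XP Pool.Agent.X298.RP

theorem result {G : Type} [Group G] {A : Type} [CommRing A] {ι : Type} [Fintype ι] {k : ι → Type}
    [∀ v, NormedField (k v)] [∀ v, IsUltrametricDist (k v)] {emb : ∀ v, A →+* k v}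
    (hA : IsSInt emb) {n : ℕ} {ρ : G →* GLS n k} (hρ : Function.Injective ρ) {K : Subgroup G}
    (hK : ∀ κ ∈ K, Bdd (ρ κ) fun _ => 1)
    {J : Type} [Fintype J] {φ : J → G → ℝ} (hφ : ∀ j, IsHecke K (φ j))
    {e : G → ℂ} (he : IsTyp K e)
    (hvol : Summable fun o : Orb (prin ρ emb (⊤ : Ideal A)) (G ⧸ K) =>
      1 / (sc (prin ρ emb (⊤ : Ideal A)) (Quotient.out o) : ℝ))
    {w : G ⧸ K → ℝ} (hw0 : ∀ x, 0 ≤ w x)
    (hwi : ∀ γ ∈ prin ρ emb (⊤ : Ideal A), ∀ x, w (γ • x) = w x)
    (hws : Summable fun o : Orb (prin ρ emb (⊤ : Ideal A)) (G ⧸ K) =>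
      w (Quotient.out o) / (sc (prin ρ emb (⊤ : Ideal A)) (Quotient.out o) : ℝ))
    (hex : ∀ N : ℕ, ∃ (𝔫 : Ideal A) (I : Type) (_ : Fintype I) (F : I → G ⧸ K → ℂ)
      (lam : I → J → ℂ), N ≤ Nat.card (A ⧸ 𝔫) ∧ IsFam ρ emb K φ e w 𝔫 F lam) :
    ∃ μ : Measure (J → ℂ), IsProbabilityMeasure μ ∧
      -- the Ramanujan bound
      (∀ᵐ z ∂μ, ∀ j, ‖z j‖ ≤ hnorm K (φ j)) ∧
      -- `μ` is the spectral measure at the vector `e`
      (∀ L L' : List J, (∫ z, (L.map z).prod * conj (L'.map z).prod ∂μ) * (esq K e : ℂ) =
        ∑ᶠ y : G ⧸ K, heckes K φ L (fun y => conj (e y.out)) y *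
          conj (heckes K φ L' (fun y => conj (e y.out)) y)) ∧
      -- the number of forms
      (∀ ε : ℝ, 0 < ε → ∃ N : ℕ, ∀ (𝔫 : Ideal A) (I : Type) [Fintype I] (F : I → G ⧸ K → ℂ)
        (lam : I → J → ℂ), IsFam ρ emb K φ e w 𝔫 F lam → N ≤ Nat.card (A ⧸ 𝔫) →
        |(Fintype.card I : ℝ) / (prin ρ emb 𝔫).relIndex (prin ρ emb ⊤) -
          esq K e * vol K (prin ρ emb (⊤ : Ideal A))| ≤ ε) ∧
      -- equidistribution
      (∀ t : (J → ℂ) → ℝ, Continuous t → ∀ ε : ℝ, 0 < ε → ∃ N : ℕ,
        ∀ (𝔫 : Ideal A) (I : Type) [Fintype I] (F : I → G ⧸ K → ℂ) (lam : I → J → ℂ),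
        IsFam ρ emb K φ e w 𝔫 F lam → N ≤ Nat.card (A ⧸ 𝔫) →
        |(∑ i, t (lam i)) / Fintype.card I - ∫ z, t z ∂μ| ≤ ε) ∧
      -- the forms which violate the Ramanujan conjecture
      ∀ (N b m : ℕ) (E : Fin N → (J → ℂ) → ℂ), (∀ k, Continuous (E k)) →
        2 * N ≤ b + 2 * m → ∀ ε : ℝ, 0 < ε → ∃ N₀ : ℕ,
        ∀ (𝔫 : Ideal A) (I : Type) [Fintype I] (F : I → G ⧸ K → ℂ) (lam : I → J → ℂ),
        IsFam ρ emb K φ e w 𝔫 F lam → N₀ ≤ Nat.card (A ⧸ 𝔫) →
        ∀ (V : I → Type) (P : ∀ i, Parameters (V i) N) (v : ∀ i, V i),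
        (∀ i, (P i).bad (v i) = 0 ∨ b ≤ (P i).bad (v i)) →
        (∀ i x, ∏ j, (x - (P i).α (v i) j) = x ^ N + ∑ k, E k (lam i) * x ^ (k : ℕ)) →
        ({i | ∃ v' j, ‖(P i).α v' j‖ ≠ 1}.ncard : ℝ) ≤
          (μ.real (Sing N m E) + ε) * Fintype.card I :=
  main2 hA hρ hK hφ he hvol hw0 hwi hws hex

end Pool.Agent.Results.MP_eadad4_nt.AlmostAllForms
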