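import Pool.Agent.Helper78.DF.Defs
import Pool.Agent.Helper78.DF.Setup
import Pool.Agent.Helper78.DF.Poly

/-!
# A density theorem in the level aspect for arbitrary groups over function fields

Let `A` be a ring of `S`-integers of a global function field with the completions `k_v`, `v ∈ S`
(`IsSInt`; for the polynomial ring over a finite field this is proved in `poly_inst`), `G` a group
with an injective homomorphism `ρ` to the product of the groups `GL_n(k_v)`, `K` a subgroup of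
matrices with integral entries, `Γ = prin ρ emb 𝔫` the principal congruence subgroup of level `𝔫` of
`G(A) = Γ₁ = prin ρ emb ⊤`. Let `F_i` be orthonormal functions in `L²(Γ \ G / K)` which are
eigenfunctions of the Hecke operators `T_j` with the eigenvalues `lam i j`. The Ramanujan conjecture
would give `‖lam i j‖ ≤ hnorm K (φ j)`, the norm of `T_j` on `ℓ²(G / K)`, for the cusp forms which
are generic.

We bound the number of the eigenvalues which violate this, counted with the mass of `F_i` on `G(A) D`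
for a finite set `D` of points of Siegel sets; the bound is a negative power of the norm of `𝔫` times
the index of `Γ` in `G(A)` times `|D|`.
-/

set_option autoImplicit false

noncomputable section

namespace Pool.Agent.Results.MP_eadad4_nt.DensityAllGroups

open Pool.Agent.Helper78.DF

theorem result {G : Type} [Group G] {A : Type} [CommRing A] {ι : Type} [Fintype ι] {k : ι → Type}
    [∀ v, NormedField (k v)] [∀ v, IsUltrametricDist (k v)] {emb : ∀ v, A →+* k v}
    (hA : IsSInt emb) {n : ℕ} {ρ : G →* GLS n k} (hρ : Function.Injective ρ) {K : Subgroup G}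
    (hK : ∀ κ ∈ K, Bdd (ρ κ) fun _ => 1) {𝔫 : Ideal A} {Γ Γ₁ : Subgroup G} (hΓ : Γ = prin ρ emb 𝔫)
    (hΓ₁ : Γ₁ = prin ρ emb ⊤)
    {I J : Type} [Fintype I] [Fintype J] {φ : J → G → ℝ} {Q Q' : J → ι → ℝ}
    {F : I → G ⧸ K → ℂ} {lam : I → J → ℂ} (hE : IsEigenSys ρ K Γ φ Q Q' F lam)
    {h h' : ι → ℝ} (hh : ∀ v, 0 < h v ∧ 0 < h' v ∧ 1 ≤ h v * h' v)
    {d : A} (hd : d ≠ 0) {D : Finset (G ⧸ K)}
    (hD : ∀ x ∈ D, ∃ c a, HasDen emb c d ∧ Dominant a ∧ x ∈ Reg ρ K c a h h') {H : ℝ}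
    (hH : H = (∏ v, (h v * h' v)) * Nat.card (A ⧸ Ideal.span {d})) :
    (∀ m : J → ℕ, H * ∏ j, (∏ v, (Q j v * Q' j v)) ^ m j < Nat.card (A ⧸ 𝔫) →
      ∑ i, (∏ j, ‖lam i j‖ ^ (2 * m j)) * massOn Γ (sat Γ₁ D) (F i) ≤
        (∏ j, hnorm K (φ j) ^ (2 * m j)) * (Γ.relIndex Γ₁ * D.card)) ∧
    ∀ (j : J) (r : ℝ), 1 < r → 1 < ∏ v, (Q j v * Q' j v) → H < Nat.card (A ⧸ 𝔫) →
      ∑ i with r * hnorm K (φ j) < ‖lam i j‖, massOn Γ (sat Γ₁ D) (F i) ≤
        r ^ 2 * (H / Nat.card (A ⧸ 𝔫)) ^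
          (2 * Real.log r / Real.log (∏ v, (Q j v * Q' j v))) * (Γ.relIndex Γ₁ * D.card) :=
  ⟨fun m hT => masses hρ hA hK hΓ hΓ₁ hE hh hd D hD hH m hT,
    fun j r hr hR hT => masses_exc hρ hA hK hΓ hΓ₁ hE hh hd D hD hH j r hr hR hT⟩

end Pool.Agent.Results.MP_eadad4_nt.DensityAllGroups
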