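import Pool.Agent.Helper61.XE.Defs
import Pool.Agent.Helper61.XP.Defs
import Pool.Agent.Helper61.XG.Main

/-!
# Exact moments and equidistribution of Hecke eigenvalues in the level aspect, for arbitrary groups
over function fields

Let `A` be a ring of `S`-integers of a global function field with the completions `k_v`, `v ∈ S`
(`IsSInt`), `G` a group with an injective homomorphism `ρ` to the product of the groups `GL_n(k_v)`,
`K` a subgroup of matrices with integral entries and `T_j`, `j ∈ J`, Hecke operators on `G / K`.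
Fix a function `f` on `Δ₀ \ G / K` with finite support, where `Δ₀ = {γ ∈ G(A) : c⁻¹ ρ(γ) c ∈ V}` and
`V` is the trivial group (then `f` is a function on `G / K`, for instance the indicator function of
a point) or the group of all upper triangular unipotent matrices (then `f` can be a Whittaker
function).

There is ONE probability measure `μ` on `ℂ^J`, which depends only on `f` and the `T_j`, such that for
every level `𝔫` and every complete system of Hecke eigenforms `F_i` of level `𝔫` (see `IsSys`) the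
joint moments of the eigenvalues, counted with the weights `|⟨F_i, f⟩|²` (point masses for `V = 1`,
squares of Whittaker coefficients or other unipotent periods for the other `V`), are EXACTLY those of
`μ` as soon as the norm of `𝔫` is larger than an explicit bound. The eigenvalues are equidistributed
with respect to `μ` as the norm of `𝔫` tends to infinity, and `μ` is supported on the set where the
Ramanujan bound `|z_j| ≤ hnorm K (φ j)` holds.

The last part is about the forms which violate the Ramanujan conjecture. Suppose that the forms `F_i`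
have Satake parameters in a representation of dimension `N` (`Parameters`: unitarity, and the
exponents of the absolute values do not depend on the place; there is nothing to assume on the
exponents if one place is considered for each form), which at a place `x_i` are the roots of the
polynomial `z ^ N + ∑ E_k(λ_i) z ^ k`, and that the number of the parameters of absolute value `≠ 1`
at `x_i` is `0` or at least `b`. Then the weight of the forms `F_i` with a parameter of absolute
value `≠ 1` at SOME place is at most `μ(Sing) + o(1)`, where `Sing` is the closed set of the points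
at which the roots have at most `m` different unit parts, for any `m ≥ N - b / 2`. In particular, if
`Sing` is a null set, the forms of nonzero Whittaker coefficient, weighted by the squares of these
coefficients, satisfy the Ramanujan conjecture at all unramified places with probability tending
to 1.
-/

set_option autoImplicit false

open scoped ComplexConjugate
open MeasureTheory

noncomputable section

namespace Pool.Agent.Results.MP_eadad4_nt.ExactEquidistribution

open Pool.Agent.Helper78.DF Pool.Agent.Helper61.XE Pool.Agent.Helper61.XP Pool.Agent.X298.RP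

open Classical in
theorem result {G : Type} [Group G] {A : Type} [CommRing A] {ι : Type} [Fintype ι] {k : ι → Type}
    [∀ v, NormedField (k v)] [∀ v, IsUltrametricDist (k v)] {emb : ∀ v, A →+* k v}
    (hA : IsSInt emb) {n : ℕ} {ρ : G →* GLS n k} (hρ : Function.Injective ρ) {K : Subgroup G}
    (hK : ∀ κ ∈ K, Bdd (ρ κ) fun _ => 1)
    {J : Type} [Fintype J] {φ : J → G → ℝ} {Q Q' : J → ι → ℝ}
    (hφ : ∀ j, IsHecke K (φ j)) (hQ : ∀ j, SizeBd ρ (φ j) (Q j) (Q' j))
    (hQ1 : ∀ j v, 1 ≤ Q j v ∧ 1 ≤ Q' j v)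
    {V : Set (GLS n k)} {c a : GLS n k} (hV : Kind V a) {d : A} (hc : HasDen emb c d)
    {h h' : ι → ℝ} (hh : ∀ v, 0 < h v ∧ 0 < h' v ∧ 1 ≤ h v * h' v) {Δ₀ : Subgroup G}
    (hΔ₀ : ∀ γ, γ ∈ Δ₀ ↔ γ ∈ prin ρ emb ⊤ ∧ c⁻¹ * ρ γ * c ∈ V)
    {f : G ⧸ K → ℂ} (hf : IsPer ρ K Δ₀ V c a h h' f) {H : ℝ}
    (hH : H = (∏ v, (h v * h' v)) * Nat.card (A ⧸ Ideal.span {d})) :
    ∃ μ : Measure (J → ℂ), IsProbabilityMeasure μ ∧
      -- if there are complete systems of arbitrarily large level, the Ramanujan bound holds `μ`-a.e.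
      ((∀ N : ℕ, ∃ (𝔫 : Ideal A) (I : Type) (_ : Fintype I) (F : I → G ⧸ K → ℂ)
        (lam : I → J → ℂ), N ≤ Nat.card (A ⧸ 𝔫) ∧ IsSys ρ emb K Δ₀ φ f 𝔫 F lam) →
          ∀ᵐ z ∂μ, ∀ j, ‖z j‖ ≤ hnorm K (φ j)) ∧
      -- the moments are exactly those of `μ`
      (∀ (𝔫 : Ideal A) (I : Type) [Fintype I] (F : I → G ⧸ K → ℂ) (lam : I → J → ℂ),
        IsSys ρ emb K Δ₀ φ f 𝔫 F lam → ∀ L L' : List J,
        H * ((L.map fun j => ∏ v, Q j v).prod * (L'.map fun j => ∏ v, Q' j v).prod) <
          Nat.card (A ⧸ 𝔫) →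
        ∑ i, (L.map (lam i)).prod * conj (L'.map (lam i)).prod *
            ((‖ip (prin ρ emb 𝔫 ⊓ Δ₀) (F i) f‖ ^ 2 : ℝ) : ℂ) =
          ip (prin ρ emb 𝔫 ⊓ Δ₀) (heckes K φ L f) (heckes K φ L' f) ∧
        ip (prin ρ emb 𝔫 ⊓ Δ₀) (heckes K φ L f) (heckes K φ L' f) =
          (∫ z, (L.map z).prod * conj (L'.map z).prod ∂μ) *
            (nsq (prin ρ emb 𝔫 ⊓ Δ₀) f : ℂ)) ∧
      -- equidistribution
      (∀ t : (J → ℂ) → ℝ, Continuous t → ∀ ε : ℝ, 0 < ε → ∃ N : ℕ,
        ∀ (𝔫 : Ideal A) (I : Type) [Fintype I] (F : I → G ⧸ K → ℂ) (lam : I → J → ℂ),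
        IsSys ρ emb K Δ₀ φ f 𝔫 F lam → N ≤ Nat.card (A ⧸ 𝔫) →
        |(∑ i, t (lam i) * ‖ip (prin ρ emb 𝔫 ⊓ Δ₀) (F i) f‖ ^ 2) /
          nsq (prin ρ emb 𝔫 ⊓ Δ₀) f - ∫ z, t z ∂μ| ≤ ε) ∧
      -- the forms which violate the Ramanujan conjecture at some place
      ∀ (N b m : ℕ) (E : Fin N → (J → ℂ) → ℂ), (∀ k, Continuous (E k)) →
        2 * N ≤ b + 2 * m → ∀ ε : ℝ, 0 < ε → ∃ N₀ : ℕ,
        ∀ (𝔫 : Ideal A) (I : Type) [Fintype I] (F : I → G ⧸ K → ℂ) (lam : I → J → ℂ),
        IsSys ρ emb K Δ₀ φ f 𝔫 F lam → N₀ ≤ Nat.card (A ⧸ 𝔫) →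
        ∀ (X : I → Type) (P : ∀ i, Parameters (X i) N) (x : ∀ i, X i),
        (∀ i, (P i).bad (x i) = 0 ∨ b ≤ (P i).bad (x i)) →
        (∀ i z, ∏ j, (z - (P i).α (x i) j) = z ^ N + ∑ k, E k (lam i) * z ^ (k : ℕ)) →
        (∑ i, if ∃ y j, ‖(P i).α y j‖ ≠ 1 then ‖ip (prin ρ emb 𝔫 ⊓ Δ₀) (F i) f‖ ^ 2 else 0) ≤
          (μ.real (Sing N m E) + ε) * nsq (prin ρ emb 𝔫 ⊓ Δ₀) f :=
  Pool.Agent.Helper61.XG.main2 hA hρ hK hφ hQ hQ1 hV hc hh hΔ₀ hf hH

end Pool.Agent.Results.MP_eadad4_nt.ExactEquidistribution
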