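import Pool.Agent.Helper78.DF.Defs
import Pool.Agent.Helper78.DF.Setup
import Pool.Agent.Helper78.DF.Poly

/-!
# A density theorem for generic forms on arbitrary groups over function fields

Let `A` be a ring of `S`-integers of a global function field with the completions `k_v`, `v ∈ S`
(`IsSInt`; for the polynomial ring over a finite field this is proved in `poly_inst`), `G` a group
with an injective homomorphism `ρ` to the product of the groups `GL_n(k_v)`, `K` a subgroup of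
matrices with integral entries, `Γ = prin ρ emb 𝔫` the principal congruence subgroup of level `𝔫` of
`G(A)`. Let `F_i` be orthonormal functions in `L²(Γ \ G / K)` which are eigenfunctions of the Hecke
operators `T_j` with the eigenvalues `lam i j`. The Ramanujan conjecture would give
`‖lam i j‖ ≤ hnorm K (φ j)`, the norm of `T_j` on `ℓ²(G / K)`, for the cusp forms which are generic.

We compare periods of the `F_i` along the unipotent group `c U c⁻¹` (Whittaker coefficients are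
examples) with their eigenvalues.
-/

set_option autoImplicit false

noncomputable section

namespace Pool.Agent.Results.MP_eadad4_nt.PeriodDensity

open Pool.Agent.Helper78.DF

theorem result {G : Type} [Group G] {A : Type} [CommRing A] {ι : Type} [Fintype ι] {k : ι → Type}
    [∀ v, NormedField (k v)] [∀ v, IsUltrametricDist (k v)] {emb : ∀ v, A →+* k v}
    (hA : IsSInt emb) {n : ℕ} {ρ : G →* GLS n k} (hρ : Function.Injective ρ) {K : Subgroup G}
    (hK : ∀ κ ∈ K, Bdd (ρ κ) fun _ => 1) {𝔫 : Ideal A} {Γ Δ : Subgroup G} (hΓ : Γ = prin ρ emb 𝔫)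
    {I J : Type} [Fintype I] [Fintype J] {φ : J → G → ℝ} {Q Q' : J → ι → ℝ}
    {F : I → G ⧸ K → ℂ} {lam : I → J → ℂ} (hE : IsEigenSys ρ K Γ φ Q Q' F lam)
    {h h' : ι → ℝ} (hh : ∀ v, 0 < h v ∧ 0 < h' v ∧ 1 ≤ h v * h' v)
    {c a : GLS n k} (ha : Dominant a) {d : A} (hc : HasDen emb c d)
    (hΔ : ∀ γ, γ ∈ Δ ↔ γ ∈ Γ ∧ Upper (c⁻¹ * ρ γ * c))
    {f : G ⧸ K → ℂ} (hf : IsTest ρ K Δ c a h h' f) {H : ℝ}
    (hH : H = (∏ v, (h v * h' v)) * Nat.card (A ⧸ Ideal.span {d})) :
    (∀ m : J → ℕ, H * ∏ j, (∏ v, (Q j v * Q' j v)) ^ m j < Nat.card (A ⧸ 𝔫) →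
      ∑ i, (∏ j, ‖lam i j‖ ^ (2 * m j)) * ‖ip Δ (F i) f‖ ^ 2 ≤
        (∏ j, hnorm K (φ j) ^ (2 * m j)) * nsq Δ f) ∧
    ∀ (j : J) (r : ℝ), 1 < r → 1 < ∏ v, (Q j v * Q' j v) → H < Nat.card (A ⧸ 𝔫) →
      ∑ i with r * hnorm K (φ j) < ‖lam i j‖, ‖ip Δ (F i) f‖ ^ 2 ≤
        r ^ 2 * (H / Nat.card (A ⧸ 𝔫)) ^
          (2 * Real.log r / Real.log (∏ v, (Q j v * Q' j v))) * nsq Δ f :=
  ⟨fun m hT => periods hρ hA hK hΓ hE hh ha hc hΔ hf hH m hT,
    fun j r hr hR hT => periods_exc hρ hA hK hΓ hE hh ha hc hΔ hf hH j r hr hR hT⟩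

end Pool.Agent.Results.MP_eadad4_nt.PeriodDensity
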